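import Pool.Agent.Helper49.DX.Ts

/-!
The interface of the planar Ising model with a defect line `J > 1` is asymptotically, up to reflection,
the interface of the homogeneous model along a wall.
-/

open Finset
open scoped Classical

namespace Pool.Agent.Results.MP_7e0861_pr.Excursion

open Pool.Agent.Helper49.DL Pool.Agent.Helper49.DX

/-- For every `β > β_c` and every `J > 1`: two-sided comparison, with an error `t` and a shift of the
heights of order `log n`, of all increasing events for the heights of the interface `Γ` of the Dobrushin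
measure with `1/2` times the same events for the interface along a wall in the same box; comparison of
blocks with the interface along a wall. -/
theorem result {β₁ β J : ℝ} (h0 : 0 ≤ β₁) (h : β₁ < β) (hm : 0 < mag β₁) (hJ : 1 < J) :
    (∃ C : ℝ, 0 < C ∧ ∀ t : ℝ, 0 < t → ∃ R n₀ : ℤ, 0 ≤ R ∧ R < n₀ ∧ ∀ n : ℤ, n₀ ≤ n →
      ∀ (𝒲 : Finset (Finset (ℤ × ℤ))) (S : ℤ), C * Real.log n ≤ S →
        (∀ W ∈ 𝒲, ∀ p ∈ W, |p.1| ≤ n - R ∧ 1 ≤ p.2) →
        1 / 2 * PW β n (Hs n S 𝒲) - t ≤ PJ β J n (HsL n 𝒲)) ∧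
    (∀ (k : ℕ) (t : ℝ), 0 < t → ∃ (C : ℝ) (R n₀ : ℤ), 0 < C ∧ 0 ≤ R ∧ R < n₀ ∧ ∀ n : ℤ, n₀ ≤ n →
      ∀ (𝒲 : Finset (Finset (ℤ × ℤ))) (S : ℤ), ∅ ∉ 𝒲 → (𝒲.biUnion id).card ≤ k →
        C * Real.log n ≤ S → (∀ W ∈ 𝒲, ∀ p ∈ W, |p.1| ≤ n - R ∧ 1 ≤ p.2 ∧ p.2 + S ≤ n - R) →
        PJ β J n (Hs n S 𝒲) ≤ 1 / 2 * PW β n (Hts n 𝒲) + t) ∧
    (∀ n c l H m K : ℤ, 0 ≤ l → 1 ≤ m → 2 ≤ H → H - 1 + m ≤ n → |c| + l ≤ n → 1 ≤ K →
      PJ β J n (fun ω => ¬ Above n (c - l - 1) H ω ∧ ¬ Above n (c + l + 1) H ω ∧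
          (∀ x, |x - c| ≤ l → ¬ Above n x (H - 1 + m) ω) ∧
          (∃ x, |x - c| ≤ l ∧ Above n x (H - 1 + K) ω)) ≤
        avg β (kap 1) (ubox l m) (eta 0)
          (fun ω => if ∃ x, |x| ≤ l ∧ Above l x K ω then 1 else 0)) := by
  refine ⟨lower_log h0 h hm hJ, fun k t ht => upper_log h0 h hm hJ k ht, ?_⟩
  intro n c l H m K hl hm' hH hHM hc hK
  unfold PJ
  convert block_le (h0.trans h.le) (zero_le_one.trans hJ.le) hl hm' hH hHM hc hK

end Pool.Agent.Results.MP_7e0861_pr.Excursion
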