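import Pool.Agent.Helper49.QP.Main
import Pool.Agent.Helper49.QP.ExpM

/-!
Functional limit theorem for the interface of the planar Potts model with `k + 2` colours and a defect line `J > 1`.
All definitions used in the statement are in this file.
-/

open Filter MeasureTheory
open scoped Classical Topology

namespace Pool.Agent.Results.MP_7e0861_pr.FullLimit

/-- Configurations with `k + 2` colours: `0` is the colour 1 and `1` is the colour 2 of the problem. -/
abbrev Conf (k : ℕ) : Type := ℤ × ℤ → Fin (k + 2)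

/-- Nearest-neighbour edges of the square lattice: `(x, true)` is the edge `{x, x + (1, 0)}` and `(x, false)` is
the edge `{x, x + (0, 1)}`. -/
abbrev Edge : Type := (ℤ × ℤ) × Bool

/-- The second end of an edge (the first is `e.1`). -/
def tip (e : Edge) : ℤ × ℤ := if e.2 = true then (e.1.1 + 1, e.1.2) else (e.1.1, e.1.2 + 1)

/-- Couplings: `J` on the edges `{(x, 0), (x, 1)}`, `1` on the other edges. -/
noncomputable def coup (J : ℝ) (e : Edge) : ℝ := if e.2 = false ∧ e.1.2 = 0 then J else 1

/-- The box `{-n, ..., n} × {-n + 1, ..., n}`. -/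
noncomputable def Lam (n : ℕ) : Finset (ℤ × ℤ) := Finset.Icc (-(n : ℤ)) n ×ˢ Finset.Icc (-(n : ℤ) + 1) n

/-- The edges meeting `Λ`. -/
def edges (Λ : Finset (ℤ × ℤ)) : Finset Edge :=
  (Λ ∪ Λ.image fun x => (x.1 - 1, x.2)) ×ˢ {true} ∪ (Λ ∪ Λ.image fun x => (x.1, x.2 - 1)) ×ˢ {false}

variable {k : ℕ}

/-- The Boltzmann weight. -/
noncomputable def weight (β J : ℝ) (Λ : Finset (ℤ × ℤ)) (ω : Conf k) : ℝ :=
  Real.exp (β * ∑ e ∈ edges Λ, coup J e * if ω e.1 = ω (tip e) then 1 else 0)

/-- The configuration equal to `σ` in `Λ` and to `η` off `Λ`. -/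
def glue (Λ : Finset (ℤ × ℤ)) (η : Conf k) (σ : Λ → Fin (k + 2)) : Conf k :=
  fun x => if h : x ∈ Λ then σ ⟨x, h⟩ else η x

/-- Expectation of `F` for the Gibbs measure in `Λ` with the boundary condition `η`. -/
noncomputable def expec (β J : ℝ) (Λ : Finset (ℤ × ℤ)) (η : Conf k) (F : Conf k → ℝ) : ℝ :=
  (∑ σ : Λ → Fin (k + 2), weight β J Λ (glue Λ η σ) * F (glue Λ η σ)) /
    ∑ σ : Λ → Fin (k + 2), weight β J Λ (glue Λ η σ)

/-- The spontaneous magnetisation of the homogeneous model with `k + 2` colours: the infimum (which is the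
limit) over `n` of `P (ω 0 = 1) - P (ω 0 = 2)` in the box `Lam n` with the boundary condition 1. -/
noncomputable def magn (k : ℕ) (β : ℝ) : ℝ :=
  ⨅ n : ℕ, expec β 1 (Lam n) (fun _ => (0 : Fin (k + 2)))
    (fun ω => if ω (0, 0) = 0 then 1 else if ω (0, 0) = 1 then -1 else 0)

/-- The Dobrushin boundary condition: colour 1 at the heights `≥ 1`, colour 2 at the heights `≤ 0`. -/
def dob : Conf k := fun x => if 1 ≤ x.2 then 0 else 1

/-- The dual edge of an edge `{i, j}`: the points at sup-distance `1/2` from `i` and from `j`. -/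
def dual (e : Edge) : Set (ℝ × ℝ) :=
  {x | dist x ((e.1.1 : ℝ), (e.1.2 : ℝ)) = 1 / 2 ∧ dist x (((tip e).1 : ℝ), ((tip e).2 : ℝ)) = 1 / 2}

/-- The union of the dual edges of the edges with ends of different colours. Its connected components are
the contours. -/
def walls (ω : Conf k) : Set (ℝ × ℝ) := ⋃ e ∈ {e : Edge | ω e.1 ≠ ω (tip e)}, dual e

/-- The unbounded contour. -/
def Gam (ω : Conf k) : Set (ℝ × ℝ) :=
  {x | x ∈ walls ω ∧ ¬ Bornology.IsBounded (connectedComponentIn (walls ω) x)}

/-- The highest point of the unbounded contour on the vertical line through `(t, 0)`. -/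
noncomputable def Gp (ω : Conf k) (t : ℝ) : ℝ := sSup {y : ℝ | (t, y) ∈ Gam ω}

/-- The time interval. -/
abbrev TI : Type := Set.Icc (-1 : ℝ) 1

/-- The Borel sigma-algebra of the space of continuous paths (uniform topology). -/
noncomputable instance pathBorel : MeasurableSpace C(TI, ℝ) := borel _

/-- The rescaled interface: the linear interpolation of the points `(x / n, Gp ω x / √n)`, `-n ≤ x ≤ n`
(a sum of tent functions). -/
noncomputable def path (n : ℕ) (ω : Conf k) : C(TI, ℝ) where
  toFun s := ∑ x ∈ Finset.Icc (-(n : ℤ)) n, Gp ω x / Real.sqrt n * max 0 (1 - |n * (s : ℝ) - x|)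
  continuous_toFun := by fun_prop

/-- The function `z t^(-3/2) exp (-z²/(2t))`. -/
noncomputable def ent (t z : ℝ) : ℝ := z * Real.exp (-(z ^ 2 / (2 * t))) / (t * Real.sqrt t)

/-- Transition density of Brownian motion on `(0, ∞)` killed at `0`. -/
noncomputable def ker (t y z : ℝ) : ℝ :=
  (Real.exp (-((y - z) ^ 2 / (2 * t))) - Real.exp (-((y + z) ^ 2 / (2 * t)))) / Real.sqrt (2 * Real.pi * t)

/-- Joint density, up to a constant, of the Brownian excursion on `[-1, 1]` at the times `s 0 < ... < s p`. -/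
noncomputable def dens {p : ℕ} (s z : Fin (p + 1) → ℝ) : ℝ :=
  ent (1 + s 0) (z 0) * (∏ i : Fin p, ker (s i.succ - s i.castSucc) (z i.castSucc) (z i.succ)) *
    ent (1 - s (Fin.last p)) (z (Fin.last p))

/-- `P` is the law of the Brownian excursion on `[-1, 1]`: a probability measure on the space of continuous
paths whose joint law at any times `-1 < s 0 < ... < s p < 1` is proportional to the measure on `(0, ∞)^(p+1)` with
the density `dens s`. -/
def IsExc (P : Measure C(TI, ℝ)) : Prop :=
  IsProbabilityMeasure P ∧ ∀ (p : ℕ) (s : Fin (p + 1) → TI), StrictMono s → -1 < (s 0 : ℝ) →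
    (s (Fin.last p) : ℝ) < 1 → ∃ c : ENNReal, P.map (fun f i => f (s i)) =
      c • (volume.restrict {z : Fin (p + 1) → ℝ | ∀ i, 0 < z i}).withDensity
        (fun z => ENNReal.ofReal (dens (fun i => (s i : ℝ)) z))

/-- For every number `q = k + 2 ≥ 2` of colours and every `β > β_c` (that is, the magnetisation is positive at some
`β₁ < β`) there is `κ > 0` such that for every `J > 1` the rescaled interface converges in law, in the space of
continuous paths on `[-1, 1]`, to `± κ • e` with a fair sign, `e` the Brownian excursion on `[-1, 1]`; and it is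
uniformly close, in probability, to the function `t ↦ Γ⁺ (n t) / √n`. -/
theorem result (k : ℕ) {β₁ β : ℝ} (h0 : 0 ≤ β₁) (h : β₁ < β) (hm : 0 < magn k β₁) :
    ∃ (P : Measure C(TI, ℝ)) (κ : ℝ), IsExc P ∧ (∀ Q : Measure C(TI, ℝ), IsExc Q → Q = P) ∧ 0 < κ ∧
      ∀ J : ℝ, 1 < J →
        (∀ G : C(TI, ℝ) → ℝ, Continuous G → (∃ B : ℝ, ∀ f, |G f| ≤ B) →
          Tendsto (fun n : ℕ => expec β J (Lam n) (dob : Conf k) (fun ω => G (path n ω))) atTop
            (𝓝 (∫ f, (G (κ • f) + G (-(κ • f))) / 2 ∂P))) ∧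
        ∀ ε : ℝ, 0 < ε → Tendsto (fun n : ℕ => expec β J (Lam n) (dob : Conf k)
          (fun ω => if ∃ s : TI, ε < |path n ω s - Gp ω (n * (s : ℝ)) / Real.sqrt n| then 1 else 0))
            atTop (𝓝 0) :=
  Pool.Agent.Helper49.QP.main_of_exp k (lt_of_le_of_lt h0 h) (Pool.Agent.Helper49.QP.exp_of_magn k h0 h hm)

end Pool.Agent.Results.MP_7e0861_pr.FullLimit
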