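import Pool.Agent.Helper49.FL.Main

/-!
Functional limit theorem for the interface of the planar two-colour Potts model with a defect line `J > 1`.
-/

open Filter MeasureTheory
open scoped Classical

namespace Pool.Agent.Results.MP_7e0861_pr.FunctionalLimit

open Pool.Agent.Helper49.FL

/-- For every `β > β_c` and every `J > 1`: the rescaled interface converges in law, in the space of continuous
paths on `[-1, 1]`, to `± kappa β • e` with a fair sign, `e` the Brownian excursion on `[-1, 1]`; the path is
uniformly close, in probability, to the function `t ↦ Γ⁺ (n t) / √n`. -/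
theorem result {β₁ β J : ℝ} (h0 : 0 ≤ β₁) (h : β₁ < β) (hm : 0 < magn β₁) (hJ : 1 < J) :
    ∃ P : Measure C(TI, ℝ), IsExc P ∧ (∀ Q : Measure C(TI, ℝ), IsExc Q → Q = P) ∧
      (∀ G : C(TI, ℝ) → ℝ, Continuous G → (∃ B : ℝ, ∀ f, |G f| ≤ B) →
        Tendsto (fun n : ℕ => expec β J (Lam n) dob (fun ω => G (path n ω))) atTop
          (nhds (∫ f, (G (kappa β • f) + G (-(kappa β • f))) / 2 ∂P))) ∧
      ∀ ε : ℝ, 0 < ε → Tendsto (fun n : ℕ => expec β J (Lam n) dob
        (fun ω => if ∃ s : TI, ε < |path n ω s - Gp ω (n * (s : ℝ)) / Real.sqrt n| then 1 else 0)) atTop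
          (nhds 0) :=
  main h0 h hm hJ

end Pool.Agent.Results.MP_7e0861_pr.FunctionalLimit
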