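import Pool.Agent.Helper49.DX.Nc

/-!
The interface of the planar Ising model with a defect line `J > 1` does not touch the defect line away
from the ends.
-/

open Finset
open scoped Classical

namespace Pool.Agent.Results.MP_7e0861_pr.NoContact

open Pool.Agent.Helper49.DL Pool.Agent.Helper49.DX

/-- For every `β > β_c`, every `J > 1` and every `t > 0` there is a distance `R` such that, in all large
boxes, the interface `Γ` of the Dobrushin measure has no contact with the defect line at distance more
than `R` from its two ends, with probability at least `1 - t`. -/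
theorem result {β₁ β J : ℝ} (h0 : 0 ≤ β₁) (h : β₁ < β) (hm : 0 < mag β₁) (hJ : 1 < J) {t : ℝ}
    (ht : 0 < t) : ∃ R n : ℤ, 0 ≤ R ∧ ∀ N M : ℤ, n ≤ N → N ≤ M →
      avg β (kap J) (box N M) (eta 0)
        (fun ω => if ∃ x : ℤ, |x| ≤ N - R ∧ On N ω (x, 0) then 1 else 0) ≤ t :=
  no_contact h0 h hm hJ ht

end Pool.Agent.Results.MP_7e0861_pr.NoContact
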